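import Mathlib

/-!
# Rectifiability of the stretch set of vector-valued Lipschitz maps (MP_adfebc_an)

For every non-constant Lipschitz map `f : ℝⁿ → ℝᵐ` the stretch set
`Γ(f) = {(x, y) : |f x - f y| = Lip f * |x - y|}` is `(n + m)`-rectifiable in the strong sense:
it is covered by countably many Lipschitz images of `ℝ^(n+m)`.

The idea: on the part of `Γ(f)` where `ε ≤ |x - y| ≤ R` the map
`(x, y) ↦ ((x + y) / 2, f y - f x)` has a Lipschitz inverse.  This comes from the fact that `f` is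
affine (and isometric up to scaling) on the segment `[x, y]`, from the Lipschitz inequalities for
the four pairs of points crossing two such segments, and from the parallelogram law.
-/

namespace Pool.Agent.Results.MP_adfebc_an.StretchSetRectifiable

open scoped NNReal

/-- The optimal Lipschitz constant `Lip f`: the infimum of all `L ≥ 0` with
`|f x - f y| ≤ L |x - y|` for all `x, y`. -/
noncomputable def lipConst {n m : ℕ}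
    (f : EuclideanSpace ℝ (Fin n) → EuclideanSpace ℝ (Fin m)) : ℝ :=
  sInf {L : ℝ | 0 ≤ L ∧ ∀ x y, ‖f x - f y‖ ≤ L * ‖x - y‖}

/-- The stretch set of `f`, as a subset of the Euclidean product `ℝⁿ × ℝⁿ`. -/
def stretchSet {n m : ℕ} (f : EuclideanSpace ℝ (Fin n) → EuclideanSpace ℝ (Fin m)) :
    Set (WithLp 2 (EuclideanSpace ℝ (Fin n) × EuclideanSpace ℝ (Fin n))) :=
  {p | ‖f p.fst - f p.snd‖ = lipConst f * ‖p.fst - p.snd‖}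

section Key

variable {E F : Type*} [NormedAddCommGroup E] [InnerProductSpace ℝ E]
  [NormedAddCommGroup F] [InnerProductSpace ℝ F]

/-- A `1`-Lipschitz map which preserves the distance of two points is affine on the segment. -/
lemma affine_on_segment (f : E → F) (hf : ∀ x y, ‖f x - f y‖ ≤ ‖x - y‖) {x x' : E}
    (h : ‖f x' - f x‖ = ‖x' - x‖) {t : ℝ} (ht0 : 0 ≤ t) (ht1 : t ≤ 1) :
    f (x + t • (x' - x)) = f x + t • (f x' - f x) := by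
  have h1 : dist (f x) (f (x + t • (x' - x))) ≤ t * ‖x' - x‖ := by
    rw [dist_eq_norm]
    refine (hf _ _).trans ?_
    have : x - (x + t • (x' - x)) = -(t • (x' - x)) := by abel
    rw [this, norm_neg, norm_smul, Real.norm_of_nonneg ht0]
  have h2 : dist (f (x + t • (x' - x))) (f x') ≤ (1 - t) * ‖x' - x‖ := by
    rw [dist_eq_norm]
    refine (hf _ _).trans ?_
    have : x + t • (x' - x) - x' = -((1 - t) • (x' - x)) := by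
      rw [sub_smul, one_smul]; abel
    rw [this, norm_neg, norm_smul, Real.norm_of_nonneg (by linarith)]
  have h3 : dist (f x) (f x') = ‖x' - x‖ := by rw [dist_comm, dist_eq_norm, h]
  have h4 := dist_triangle (f x) (f (x + t • (x' - x))) (f x')
  have e1 : dist (f x) (f (x + t • (x' - x))) = t * dist (f x) (f x') := by
    rw [h3] at h4 ⊢; linarith
  have e2 : dist (f (x + t • (x' - x))) (f x') = (1 - t) * dist (f x) (f x') := by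
    rw [h3] at h4 ⊢; linarith
  have := eq_lineMap_of_dist_eq_mul_of_dist_eq_mul e1 e2
  rw [this, AffineMap.lineMap_apply, vsub_eq_sub, vadd_eq_add, add_comm]

/-- Pure inner product space part of the comparison of directions. -/
lemma parallelogram_bound {h : ℝ} (hh0 : 0 < h) (y₁ y₂ d₁ d₂ : E) (g₁ g₂ w₁ w₂ : F)
    (nd₁ : ‖d₁‖ = 1) (nd₂ : ‖d₂‖ = 1) (nw₁ : ‖w₁‖ = 1) (nw₂ : ‖w₂‖ = 1)
    (p1 : ‖(g₁ - g₂) + h • (w₁ + w₂)‖ ≤ ‖(y₁ - y₂) + h • (d₁ + d₂)‖)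
    (p2 : ‖(g₁ - g₂) - h • (w₁ + w₂)‖ ≤ ‖(y₁ - y₂) - h • (d₁ + d₂)‖) :
    ‖d₁ - d₂‖ ≤ h⁻¹ * ‖y₁ - y₂‖ + ‖w₁ - w₂‖ := by
  have q1 := parallelogram_law_with_norm ℝ (g₁ - g₂) (h • (w₁ + w₂))
  have q2 := parallelogram_law_with_norm ℝ (y₁ - y₂) (h • (d₁ + d₂))
  have q3 := parallelogram_law_with_norm ℝ w₁ w₂
  have q4 := parallelogram_law_with_norm ℝ d₁ d₂
  rw [nw₁, nw₂] at q3
  rw [nd₁, nd₂] at q4
  rw [norm_smul, Real.norm_of_nonneg hh0.le] at q1 q2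
  have s1 := mul_self_le_mul_self (norm_nonneg _) p1
  have s2 := mul_self_le_mul_self (norm_nonneg _) p2
  have main : ‖d₁ - d₂‖ ^ 2 * h ^ 2 ≤ ‖y₁ - y₂‖ ^ 2 + h ^ 2 * ‖w₁ - w₂‖ ^ 2 := by
    have hg0 : 0 ≤ ‖g₁ - g₂‖ * ‖g₁ - g₂‖ := by positivity
    have t1 : h ^ 2 * (‖w₁ + w₂‖ * ‖w₁ + w₂‖) = h ^ 2 * (4 - ‖w₁ - w₂‖ * ‖w₁ - w₂‖) := by
      congr 1; linarith
    have t2 : h ^ 2 * (‖d₁ + d₂‖ * ‖d₁ + d₂‖) = h ^ 2 * (4 - ‖d₁ - d₂‖ * ‖d₁ - d₂‖) := by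
      congr 1; linarith
    have t3 : ‖g₁ - g₂‖ * ‖g₁ - g₂‖ + h ^ 2 * (‖w₁ + w₂‖ * ‖w₁ + w₂‖) ≤
        ‖y₁ - y₂‖ * ‖y₁ - y₂‖ + h ^ 2 * (‖d₁ + d₂‖ * ‖d₁ + d₂‖) := by linarith
    rw [t1, t2] at t3
    linarith
  have hh2 : 0 < h ^ 2 := by positivity
  have e6 : ‖d₁ - d₂‖ ^ 2 ≤ ‖y₁ - y₂‖ ^ 2 / h ^ 2 + ‖w₁ - w₂‖ ^ 2 := by
    rw [← sub_le_iff_le_add, le_div_iff₀ hh2]
    linarith
  have e5 : (h⁻¹ * ‖y₁ - y₂‖) ^ 2 = ‖y₁ - y₂‖ ^ 2 / h ^ 2 := by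
    rw [mul_pow, inv_pow]; field_simp
  have e7 : 0 ≤ h⁻¹ * ‖y₁ - y₂‖ * ‖w₁ - w₂‖ := by positivity
  have e8 : ‖d₁ - d₂‖ ^ 2 ≤ (h⁻¹ * ‖y₁ - y₂‖ + ‖w₁ - w₂‖) ^ 2 := by
    have : (h⁻¹ * ‖y₁ - y₂‖ + ‖w₁ - w₂‖) ^ 2 =
      (h⁻¹ * ‖y₁ - y₂‖) ^ 2 + ‖w₁ - w₂‖ ^ 2 + 2 * (h⁻¹ * ‖y₁ - y₂‖ * ‖w₁ - w₂‖) := by ring
    rw [this, e5]
    linarith
  exact le_of_sq_le_sq e8 (by positivity)

/-- Values of `f` near the midpoint of a stretched segment. -/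
lemma value_near_midpoint (f : E → F) (hf : ∀ x y, ‖f x - f y‖ ≤ ‖x - y‖) {x x' : E} {h : ℝ}
    (hh0 : 0 < h) (hr : 2 * h ≤ ‖x' - x‖) (hx : ‖f x' - f x‖ = ‖x' - x‖) {σ : ℝ}
    (hσ : |σ| ≤ 1) :
    f ((1 / 2 : ℝ) • (x + x') + (σ * h) • (‖x' - x‖⁻¹ • (x' - x))) =
      (1 / 2 : ℝ) • (f x + f x') + (σ * h) • (‖x' - x‖⁻¹ • (f x' - f x)) := by
  have hr0 : 0 < ‖x' - x‖ := by linarith
  have hb : |σ * h * ‖x' - x‖⁻¹| ≤ 1 / 2 := by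
    rw [abs_mul, abs_mul, abs_of_pos hh0, abs_of_pos (inv_pos.mpr hr0)]
    have h5 : |σ| * h ≤ 1 * h := mul_le_mul_of_nonneg_right hσ hh0.le
    rw [← div_eq_mul_inv, div_le_iff₀ hr0]
    linarith
  have hb' := abs_le.mp hb
  have e1 : (1 / 2 : ℝ) • (x + x') + (σ * h) • (‖x' - x‖⁻¹ • (x' - x)) =
      x + (1 / 2 + σ * h * ‖x' - x‖⁻¹) • (x' - x) := by
    module
  have e2 : (1 / 2 : ℝ) • (f x + f x') + (σ * h) • (‖x' - x‖⁻¹ • (f x' - f x)) =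
      f x + (1 / 2 + σ * h * ‖x' - x‖⁻¹) • (f x' - f x) := by
    module
  rw [e1, e2]
  exact affine_on_segment f hf hx (by linarith [hb'.1]) (by linarith [hb'.2])

/-- Comparison of directions. -/
lemma direction_bound (f : E → F) (hf : ∀ x y, ‖f x - f y‖ ≤ ‖x - y‖) {x₁ x₁' x₂ x₂' : E}
    {h : ℝ} (hh0 : 0 < h)
    (h₁ : ‖f x₁' - f x₁‖ = ‖x₁' - x₁‖) (h₂ : ‖f x₂' - f x₂‖ = ‖x₂' - x₂‖)
    (hε₁ : 2 * h ≤ ‖x₁' - x₁‖) (hε₂ : 2 * h ≤ ‖x₂' - x₂‖) :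
    ‖(‖x₁' - x₁‖⁻¹) • (x₁' - x₁) - (‖x₂' - x₂‖⁻¹) • (x₂' - x₂)‖ ≤
      h⁻¹ * ‖(1 / 2 : ℝ) • (x₁ + x₁') - (1 / 2 : ℝ) • (x₂ + x₂')‖ +
      ‖(‖x₁' - x₁‖⁻¹) • (f x₁' - f x₁) - (‖x₂' - x₂‖⁻¹) • (f x₂' - f x₂)‖ := by
  have hr₁0 : 0 < ‖x₁' - x₁‖ := by linarith
  have hr₂0 : 0 < ‖x₂' - x₂‖ := by linarith
  have a1 := value_near_midpoint f hf hh0 hε₁ h₁ (σ := 1) (by norm_num)
  have a2 := value_near_midpoint f hf hh0 hε₂ h₂ (σ := -1) (by norm_num)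
  have a3 := value_near_midpoint f hf hh0 hε₁ h₁ (σ := -1) (by norm_num)
  have a4 := value_near_midpoint f hf hh0 hε₂ h₂ (σ := 1) (by norm_num)
  apply parallelogram_bound hh0 _ _ _ _ ((1 / 2 : ℝ) • (f x₁ + f x₁'))
    ((1 / 2 : ℝ) • (f x₂ + f x₂'))
  · rw [norm_smul, norm_inv, norm_norm, inv_mul_cancel₀ hr₁0.ne']
  · rw [norm_smul, norm_inv, norm_norm, inv_mul_cancel₀ hr₂0.ne']
  · rw [norm_smul, norm_inv, norm_norm, h₁, inv_mul_cancel₀ hr₁0.ne']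
  · rw [norm_smul, norm_inv, norm_norm, h₂, inv_mul_cancel₀ hr₂0.ne']
  · have := hf ((1 / 2 : ℝ) • (x₁ + x₁') + ((1 : ℝ) * h) • (‖x₁' - x₁‖⁻¹ • (x₁' - x₁)))
      ((1 / 2 : ℝ) • (x₂ + x₂') + ((-1 : ℝ) * h) • (‖x₂' - x₂‖⁻¹ • (x₂' - x₂)))
    rw [a1, a2] at this
    convert this using 2 <;> module
  · have := hf ((1 / 2 : ℝ) • (x₁ + x₁') + ((-1 : ℝ) * h) • (‖x₁' - x₁‖⁻¹ • (x₁' - x₁)))
      ((1 / 2 : ℝ) • (x₂ + x₂') + ((1 : ℝ) * h) • (‖x₂' - x₂‖⁻¹ • (x₂' - x₂)))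
    rw [a3, a4] at this
    convert this using 2 <;> module

/-- Difference of normalised vectors. -/
lemma norm_smul_inv_sub_le {v₁ v₂ : F} {h : ℝ} (hh0 : 0 < h) (h1 : 2 * h ≤ ‖v₁‖)
    (h2 : 2 * h ≤ ‖v₂‖) :
    ‖(‖v₁‖⁻¹) • v₁ - (‖v₂‖⁻¹) • v₂‖ ≤ h⁻¹ * ‖v₁ - v₂‖ := by
  have h10 : 0 < ‖v₁‖ := by linarith
  have h20 : 0 < ‖v₂‖ := by linarith
  have e : (‖v₁‖⁻¹) • v₁ - (‖v₂‖⁻¹) • v₂ =
      (‖v₁‖⁻¹) • ((v₁ - v₂) + (1 - ‖v₁‖ * ‖v₂‖⁻¹) • v₂) := by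
    rw [smul_add, smul_smul, mul_sub, ← mul_assoc, inv_mul_cancel₀ h10.ne', one_mul, mul_one,
      sub_smul, smul_sub]
    abel
  rw [e, norm_smul, norm_inv, norm_norm]
  have b1 : ‖(v₁ - v₂) + (1 - ‖v₁‖ * ‖v₂‖⁻¹) • v₂‖ ≤ 2 * ‖v₁ - v₂‖ := by
    refine (norm_add_le _ _).trans ?_
    have : ‖(1 - ‖v₁‖ * ‖v₂‖⁻¹) • v₂‖ ≤ ‖v₁ - v₂‖ := by
      rw [norm_smul, Real.norm_eq_abs]
      have e2 : |1 - ‖v₁‖ * ‖v₂‖⁻¹| * ‖v₂‖ = |‖v₂‖ - ‖v₁‖| := by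
        nth_rw 2 [← abs_of_pos h20]
        rw [← abs_mul]
        congr 1
        field_simp
      rw [e2, abs_sub_comm]
      exact abs_norm_sub_norm_le _ _
    linarith
  calc ‖v₁‖⁻¹ * ‖(v₁ - v₂) + (1 - ‖v₁‖ * ‖v₂‖⁻¹) • v₂‖
      ≤ (2 * h)⁻¹ * (2 * ‖v₁ - v₂‖) := by
        apply mul_le_mul _ b1 (norm_nonneg _) (by positivity)
        exact inv_anti₀ (by positivity) h1
    _ = h⁻¹ * ‖v₁ - v₂‖ := by rw [mul_inv]; ring

/-- The main estimate: the difference vector `x' - x` is a Lipschitz function of the midpoint and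
of `f x' - f x` on the stretched pairs with `2 h ≤ |x' - x| ≤ R`. -/
lemma difference_bound (f : E → F) (hf : ∀ x y, ‖f x - f y‖ ≤ ‖x - y‖) {x₁ x₁' x₂ x₂' : E}
    {h R : ℝ} (hh0 : 0 < h)
    (h₁ : ‖f x₁' - f x₁‖ = ‖x₁' - x₁‖) (h₂ : ‖f x₂' - f x₂‖ = ‖x₂' - x₂‖)
    (hε₁ : 2 * h ≤ ‖x₁' - x₁‖) (hε₂ : 2 * h ≤ ‖x₂' - x₂‖) (hR : ‖x₂' - x₂‖ ≤ R) :
    ‖(x₁' - x₁) - (x₂' - x₂)‖ ≤
      (R * h⁻¹) * ‖(1 / 2 : ℝ) • (x₁ + x₁') - (1 / 2 : ℝ) • (x₂ + x₂')‖ +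
      (1 + R * h⁻¹) * ‖(f x₁' - f x₁) - (f x₂' - f x₂)‖ := by
  have hr₁0 : 0 < ‖x₁' - x₁‖ := by linarith
  have hr₂0 : 0 < ‖x₂' - x₂‖ := by linarith
  have hR0 : 0 < R := by linarith
  have b := direction_bound f hf hh0 h₁ h₂ hε₁ hε₂
  have c : ‖(‖x₁' - x₁‖⁻¹) • (f x₁' - f x₁) - (‖x₂' - x₂‖⁻¹) • (f x₂' - f x₂)‖ ≤
      h⁻¹ * ‖(f x₁' - f x₁) - (f x₂' - f x₂)‖ := by
    have := norm_smul_inv_sub_le (v₁ := f x₁' - f x₁) (v₂ := f x₂' - f x₂) hh0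
      (by rw [h₁]; exact hε₁) (by rw [h₂]; exact hε₂)
    rwa [h₁, h₂] at this
  have e : (x₁' - x₁) - (x₂' - x₂) =
      (1 - ‖x₂' - x₂‖ * ‖x₁' - x₁‖⁻¹) • (x₁' - x₁) +
      ‖x₂' - x₂‖ • ((‖x₁' - x₁‖⁻¹) • (x₁' - x₁) - (‖x₂' - x₂‖⁻¹) • (x₂' - x₂)) := by
    rw [smul_sub ‖x₂' - x₂‖, smul_smul ‖x₂' - x₂‖, smul_smul ‖x₂' - x₂‖,
      mul_inv_cancel₀ hr₂0.ne', one_smul, sub_smul _ _ (x₁' - x₁), one_smul]
    abel
  have d1 : ‖(1 - ‖x₂' - x₂‖ * ‖x₁' - x₁‖⁻¹) • (x₁' - x₁)‖ ≤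
      ‖(f x₁' - f x₁) - (f x₂' - f x₂)‖ := by
    rw [norm_smul, Real.norm_eq_abs]
    have e2 : |1 - ‖x₂' - x₂‖ * ‖x₁' - x₁‖⁻¹| * ‖x₁' - x₁‖ = |‖x₁' - x₁‖ - ‖x₂' - x₂‖| := by
      nth_rw 2 [← abs_of_pos hr₁0]
      rw [← abs_mul]
      congr 1
      field_simp
    rw [e2, ← h₁, ← h₂]
    exact abs_norm_sub_norm_le _ _
  rw [e]
  refine (norm_add_le _ _).trans ?_
  have d2 : ‖‖x₂' - x₂‖ • ((‖x₁' - x₁‖⁻¹) • (x₁' - x₁) - (‖x₂' - x₂‖⁻¹) • (x₂' - x₂))‖ ≤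
      R * (h⁻¹ * ‖(1 / 2 : ℝ) • (x₁ + x₁') - (1 / 2 : ℝ) • (x₂ + x₂')‖ +
        h⁻¹ * ‖(f x₁' - f x₁) - (f x₂' - f x₂)‖) := by
    rw [norm_smul, norm_norm]
    apply mul_le_mul hR (b.trans (by linarith)) (norm_nonneg _) hR0.le
  linarith [d1, d2]

end Key

section Covering

variable {E F : Type*} [NormedAddCommGroup E] [InnerProductSpace ℝ E] [FiniteDimensional ℝ E]
  [NormedAddCommGroup F] [InnerProductSpace ℝ F] [FiniteDimensional ℝ F]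

/-- The map `(x, x') ↦ ((x + x') / 2, f x' - f x)`. -/
noncomputable def phi (f : E → F) (p : WithLp 2 (E × E)) : E × F :=
  ((1 / 2 : ℝ) • (p.fst + p.snd), f p.snd - f p.fst)

/-- The piece of the stretch set with `2 h ≤ |x - x'| ≤ R`. -/
def piece (f : E → F) (h R : ℝ) : Set (WithLp 2 (E × E)) :=
  {p | ‖f p.snd - f p.fst‖ = ‖p.snd - p.fst‖ ∧ 2 * h ≤ ‖p.snd - p.fst‖ ∧ ‖p.snd - p.fst‖ ≤ R}

omit [FiniteDimensional ℝ E] [FiniteDimensional ℝ F] in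
lemma piece_bound (f : E → F) (hf : ∀ x y, ‖f x - f y‖ ≤ ‖x - y‖) {h R : ℝ} (hh0 : 0 < h)
    (hR0 : 0 ≤ R) {p q : WithLp 2 (E × E)} (hp : p ∈ piece f h R) (hq : q ∈ piece f h R) :
    dist p q ≤ (2 + (1 + 2 * (R * h⁻¹))) * dist (phi f p) (phi f q) := by
  have hRh : 0 ≤ R * h⁻¹ := by positivity
  have D := difference_bound f hf hh0 hp.1 hq.1 hp.2.1 hq.2.1 hq.2.2
  set δ := dist (phi f p) (phi f q) with hδ
  have hδ0 : 0 ≤ δ := dist_nonneg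
  have m1 : ‖(1 / 2 : ℝ) • (p.fst + p.snd) - (1 / 2 : ℝ) • (q.fst + q.snd)‖ ≤ δ := by
    rw [hδ, ← dist_eq_norm, Prod.dist_eq]
    exact le_max_left _ _
  have m2 : ‖(f p.snd - f p.fst) - (f q.snd - f q.fst)‖ ≤ δ := by
    rw [hδ, ← dist_eq_norm, Prod.dist_eq]
    exact le_max_right _ _
  have D' : ‖(p.snd - p.fst) - (q.snd - q.fst)‖ ≤ (1 + 2 * (R * h⁻¹)) * δ := by
    refine D.trans ?_
    have c1 := mul_le_mul_of_nonneg_left m1 hRh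
    have c2 := mul_le_mul_of_nonneg_left m2 (show 0 ≤ 1 + R * h⁻¹ by linarith)
    linarith
  have e1 : p.fst - q.fst = ((1 / 2 : ℝ) • (p.fst + p.snd) - (1 / 2 : ℝ) • (q.fst + q.snd)) -
      (1 / 2 : ℝ) • ((p.snd - p.fst) - (q.snd - q.fst)) := by module
  have e2 : p.snd - q.snd = ((1 / 2 : ℝ) • (p.fst + p.snd) - (1 / 2 : ℝ) • (q.fst + q.snd)) +
      (1 / 2 : ℝ) • ((p.snd - p.fst) - (q.snd - q.fst)) := by module
  have n1 : ‖p.fst - q.fst‖ ≤ δ + (1 / 2) * ((1 + 2 * (R * h⁻¹)) * δ) := by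
    rw [e1]
    refine (norm_sub_le _ _).trans ?_
    rw [norm_smul (1 / 2 : ℝ) ((p.snd - p.fst) - (q.snd - q.fst)),
      Real.norm_of_nonneg (by norm_num : (0 : ℝ) ≤ 1 / 2)]
    linarith
  have n2 : ‖p.snd - q.snd‖ ≤ δ + (1 / 2) * ((1 + 2 * (R * h⁻¹)) * δ) := by
    rw [e2]
    refine (norm_add_le _ _).trans ?_
    rw [norm_smul (1 / 2 : ℝ) ((p.snd - p.fst) - (q.snd - q.fst)),
      Real.norm_of_nonneg (by norm_num : (0 : ℝ) ≤ 1 / 2)]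
    linarith
  have hd : dist p q ≤ ‖p.fst - q.fst‖ + ‖p.snd - q.snd‖ := by
    rw [WithLp.prod_dist_eq_of_L2, dist_eq_norm, dist_eq_norm]
    apply Real.sqrt_le_iff.mpr
    refine ⟨by positivity, ?_⟩
    nlinarith [mul_nonneg (norm_nonneg (p.fst - q.fst)) (norm_nonneg (p.snd - q.snd))]
  linarith

lemma piece_cover (f : E → F) (hf : ∀ x y, ‖f x - f y‖ ≤ ‖x - y‖) {h R : ℝ} (hh0 : 0 < h)
    (hR0 : 0 ≤ R) :
    ∃ g : E × F → WithLp 2 (E × E), (∃ K, LipschitzWith K g) ∧ piece f h R ⊆ Set.range g := by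
  by_cases hne : (piece f h R).Nonempty
  swap
  · rw [Set.not_nonempty_iff_eq_empty] at hne
    rw [hne]
    exact ⟨fun _ => 0, ⟨0, LipschitzWith.const 0⟩, Set.empty_subset _⟩
  have : Nonempty (WithLp 2 (E × E)) := ⟨0⟩
  have hinj : Set.InjOn (phi f) (piece f h R) := by
    intro p hp q hq hpq
    have := piece_bound f hf hh0 hR0 hp hq
    rw [hpq, dist_self, mul_zero] at this
    exact dist_le_zero.mp this
  have hinv : ∀ p ∈ piece f h R, Function.invFunOn (phi f) (piece f h R) (phi f p) = p :=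
    fun p hp => hinj.leftInvOn_invFunOn hp
  have hlip : LipschitzOnWith (Real.toNNReal (2 + (1 + 2 * (R * h⁻¹))))
      (Function.invFunOn (phi f) (piece f h R)) (phi f '' piece f h R) := by
    apply LipschitzOnWith.of_dist_le_mul
    rintro _ ⟨p, hp, rfl⟩ _ ⟨q, hq, rfl⟩
    rw [hinv p hp, hinv q hq, Real.coe_toNNReal _ (by positivity)]
    exact piece_bound f hf hh0 hR0 hp hq
  obtain ⟨g, hg, hgeq⟩ := hlip.extend_finite_dimension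
  refine ⟨g, ⟨_, hg⟩, fun p hp => ⟨phi f p, ?_⟩⟩
  rw [← hgeq ⟨p, hp, rfl⟩, hinv p hp]

end Covering

lemma lipConst_spec {n m : ℕ} {f : EuclideanSpace ℝ (Fin n) → EuclideanSpace ℝ (Fin m)}
    (hf : ∃ K : ℝ≥0, LipschitzWith K f) (x y) : ‖f x - f y‖ ≤ lipConst f * ‖x - y‖ := by
  obtain ⟨K, hK⟩ := hf
  have hne : {L : ℝ | 0 ≤ L ∧ ∀ x y, ‖f x - f y‖ ≤ L * ‖x - y‖}.Nonempty := by
    refine ⟨K, K.2, fun x y => ?_⟩
    have := hK.dist_le_mul x y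
    rwa [dist_eq_norm, dist_eq_norm] at this
  by_cases hxy : x = y
  · subst hxy; simp
  have hpos : 0 < ‖x - y‖ := norm_pos_iff.mpr (sub_ne_zero.mpr hxy)
  rw [← div_le_iff₀ hpos]
  apply le_csInf hne
  intro L hL
  rw [div_le_iff₀ hpos]
  exact hL.2 x y

/-- **The stretch set of a non-constant Lipschitz map `ℝⁿ → ℝᵐ` is `(n + m)`-rectifiable.**
There are countably many Lipschitz maps `ψ i : ℝ^(n+m) → ℝⁿ × ℝⁿ` whose images cover `Γ(f)`. -/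
theorem result (n m : ℕ) (f : EuclideanSpace ℝ (Fin n) → EuclideanSpace ℝ (Fin m))
    (hf : ∃ K : ℝ≥0, LipschitzWith K f) (hnc : ∃ x y, f x ≠ f y) :
    ∃ ψ : ℕ → EuclideanSpace ℝ (Fin (n + m)) →
        WithLp 2 (EuclideanSpace ℝ (Fin n) × EuclideanSpace ℝ (Fin n)),
      (∀ i, ∃ K : ℝ≥0, LipschitzWith K (ψ i)) ∧ stretchSet f ⊆ ⋃ i, Set.range (ψ i) := by
  have hL := lipConst_spec hf
  have hL0 : 0 < lipConst f := by
    obtain ⟨x, y, hxy⟩ := hnc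
    have h1 := hL x y
    have h2 : 0 < ‖f x - f y‖ := norm_pos_iff.mpr (sub_ne_zero.mpr hxy)
    by_contra hcon
    push Not at hcon
    have := mul_nonpos_of_nonpos_of_nonneg hcon (norm_nonneg (x - y))
    linarith
  set L := lipConst f with hLdef
  let f' : EuclideanSpace ℝ (Fin n) → EuclideanSpace ℝ (Fin m) := fun x => L⁻¹ • f x
  have hf' : ∀ x y, ‖f' x - f' y‖ ≤ ‖x - y‖ := by
    intro x y
    have : f' x - f' y = L⁻¹ • (f x - f y) := by simp [f', smul_sub]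
    rw [this, norm_smul, norm_inv, Real.norm_of_nonneg hL0.le, inv_mul_le_iff₀ hL0]
    exact hL x y
  choose g hg using fun k : ℕ => piece_cover f' hf' (h := 1 / ((k : ℝ) + 1)) (R := k)
    (by positivity) (by positivity)
  let e : EuclideanSpace ℝ (Fin (n + m)) ≃L[ℝ]
      (EuclideanSpace ℝ (Fin n) × EuclideanSpace ℝ (Fin m)) :=
    ContinuousLinearEquiv.ofFinrankEq (by simp)
  let diag : (EuclideanSpace ℝ (Fin n) × EuclideanSpace ℝ (Fin m)) →L[ℝ]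
      WithLp 2 (EuclideanSpace ℝ (Fin n) × EuclideanSpace ℝ (Fin n)) :=
    ((WithLp.prodContinuousLinearEquiv 2 ℝ (EuclideanSpace ℝ (Fin n))
      (EuclideanSpace ℝ (Fin n))).symm :
      (EuclideanSpace ℝ (Fin n) × EuclideanSpace ℝ (Fin n)) →L[ℝ]
        WithLp 2 (EuclideanSpace ℝ (Fin n) × EuclideanSpace ℝ (Fin n))).comp
      ((ContinuousLinearMap.fst ℝ _ _).prod (ContinuousLinearMap.fst ℝ _ _))
  refine ⟨fun i => Nat.casesOn i (fun z => diag (e z)) (fun k z => g k (e z)), ?_, ?_⟩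
  · intro i
    rcases i with _ | k
    · exact ⟨_, diag.lipschitz.comp e.lipschitz⟩
    · obtain ⟨K, hK⟩ := (hg k).1
      exact ⟨_, hK.comp e.lipschitz⟩
  · intro p hp
    rw [Set.mem_iUnion]
    by_cases hpp : p.fst = p.snd
    · refine ⟨0, e.symm (p.fst, 0), ?_⟩
      change diag (e (e.symm (p.fst, 0))) = p
      rw [e.apply_symm_apply]
      have : p = WithLp.toLp 2 (p.fst, p.snd) := rfl
      rw [this, ← hpp]
      rfl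
    · have hpos : 0 < ‖p.snd - p.fst‖ := norm_pos_iff.mpr (sub_ne_zero.mpr (Ne.symm hpp))
      obtain ⟨k1, hk1⟩ := exists_nat_gt (2 / ‖p.snd - p.fst‖)
      obtain ⟨k2, hk2⟩ := exists_nat_ge ‖p.snd - p.fst‖
      have hmem : p ∈ piece f' (1 / (((max k1 k2 : ℕ) : ℝ) + 1)) ((max k1 k2 : ℕ) : ℝ) := by
        refine ⟨?_, ?_, ?_⟩
        · have : f' p.snd - f' p.fst = L⁻¹ • (f p.snd - f p.fst) := by simp [f', smul_sub]
          rw [this, norm_smul, norm_inv, Real.norm_of_nonneg hL0.le, norm_sub_rev, hp,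
            ← hLdef, ← mul_assoc, inv_mul_cancel₀ hL0.ne', one_mul, norm_sub_rev]
        · have hk : (k1 : ℝ) ≤ ((max k1 k2 : ℕ) : ℝ) := by exact_mod_cast le_max_left _ _
          rw [mul_one_div, div_le_iff₀ (by positivity)]
          rw [div_lt_iff₀ hpos] at hk1
          nlinarith
        · refine hk2.trans ?_
          exact_mod_cast le_max_right _ _
      obtain ⟨z, hz⟩ := (hg (max k1 k2)).2 hmem
      refine ⟨max k1 k2 + 1, e.symm z, ?_⟩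
      change g (max k1 k2) (e (e.symm z)) = p
      rw [e.apply_symm_apply, hz]

end Pool.Agent.Results.MP_adfebc_an.StretchSetRectifiable
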